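import Mathlib

set_option autoImplicit false

namespace Pool.Agent.Results.MP_81a4f1_co.N16

open SimpleGraph Finset

/-- local independence number: the largest size of an independent set inside `N(v)` -/
noncomputable def loc {V : Type} (G : SimpleGraph V) (v : V) : ℕ :=
  sSup {k | ∃ S : Finset V, (∀ s ∈ S, G.Adj v s) ∧ G.IsIndepSet (S : Set V) ∧ S.card = k}

/-- number of vertices whose local independence number is maximum -/
noncomputable def freq {V : Type} [Fintype V] (G : SimpleGraph V) : ℕ :=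
  (univ.filter fun v => loc G v = univ.sup (loc G)).card

def R (a b : ℕ) : Bool := (a < 10 && b < 14) || (a == 10 && b == 13) || (a == 13 && 13 < b)

def G : SimpleGraph (Fin 16) where
  Adj a b := a ≠ b ∧ (R a b || R b a) = true
  symm := ⟨fun a b h => ⟨h.1.symm, by rw [Bool.or_comm]; exact h.2⟩⟩
  loopless := ⟨fun a h => h.1 rfl⟩

instance : DecidableRel G.Adj := fun _ _ => inferInstanceAs (Decidable (_ ∧ _))

lemma no4 : ∀ a b : Fin 16, a ≠ b → ¬ G.Adj a b → ∀ c, a ≠ c → b ≠ c → ¬ G.Adj a c → ¬ G.Adj b c →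
    ∀ d, d ∉ [a, b, c] → ∀ v, (∀ x ∈ [a, b, c, d], G.Adj v x) → ∃ x ∈ [a, b, c], G.Adj x d := by
  decide +kernel

lemma ub (v : Fin 16) : ∀ k ∈ {k | ∃ S : Finset (Fin 16), (∀ s ∈ S, G.Adj v s) ∧
    G.IsIndepSet (S : Set (Fin 16)) ∧ S.card = k}, k ≤ 3 := by
  rintro k ⟨S, h1, h2, rfl⟩
  by_contra hc
  obtain ⟨T, hT, h4⟩ := exists_subset_card_eq (show 4 ≤ S.card by omega)
  obtain ⟨d, U, hd, rfl, h3⟩ := card_eq_succ.1 h4
  obtain ⟨a, b, c, p, q, r, rfl⟩ := card_eq_three.1 h3
  have ha : a ∈ S := hT (by simp)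
  have hb : b ∈ S := hT (by simp)
  have hc : c ∈ S := hT (by simp)
  have hd' : d ∈ S := hT (by simp)
  obtain ⟨x, h5, h6⟩ := no4 a b p (h2 ha hb p) c q r (h2 ha hc q) (h2 hb hc r) d (by simpa using hd) v
    (by simp [h1, ha, hb, hc, hd'])
  exact h2 (hT (by simp at h5 ⊢; tauto)) hd' h6.ne h6

lemma le3 (v : Fin 16) : loc G v ≤ 3 := csSup_le' (ub v)

lemma eq3 (v : Fin 16) (hv : v.val < 10 ∨ v = 13) : loc G v = 3 := by
  refine le_antisymm (le3 v) (le_csSup ⟨3, ub v⟩ ?_)
  rcases hv with h | rfl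
  · exact ⟨{10, 11, 12}, by revert v; decide, by
      intro a ha b hb; revert a b; simp only [mem_coe]; decide, rfl⟩
  · exact ⟨{10, 14, 15}, by decide, by
      intro a ha b hb; revert a b; simp only [mem_coe]; decide, rfl⟩

lemma noham (a b : Fin 16) (p : G.Walk a b) : ¬ p.IsHamiltonian := by
  intro h
  have hl : p.length = 15 := by simpa using h.length_eq
  have inj := h.isPath.getVert_injOn
  have leaf : ∀ x y : Fin 16, 13 < x.val → G.Adj x y → y = 13 := by decide
  have nxt : ∀ i, i < 15 → 13 < (p.getVert i).val → p.getVert (i + 1) = 13 := fun i hi hx =>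
    leaf _ _ hx (p.adj_getVert_succ (by omega))
  have prv : ∀ i, i < 15 → 13 < (p.getVert (i + 1)).val → p.getVert i = 13 := fun i hi hx =>
    leaf _ _ hx (p.adj_getVert_succ (by omega)).symm
  have ends : ∀ i, i ≤ 15 → 13 < (p.getVert i).val → i = 0 ∨ i = 15 := by
    intro i hi hx
    by_contra hc
    obtain ⟨j, rfl⟩ : ∃ j, i = j + 1 := ⟨i - 1, by omega⟩
    have := inj (show j ≤ p.length by omega) (show j + 1 + 1 ≤ p.length by omega)
      ((prv j (by omega) hx).trans (nxt (j + 1) (by omega) hx).symm)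
    omega
  obtain ⟨i, hi, i1⟩ := Walk.mem_support_iff_exists_getVert.1 (h.mem_support 14)
  obtain ⟨j, hj, j1⟩ := Walk.mem_support_iff_exists_getVert.1 (h.mem_support 15)
  have e1 := ends i (by omega) (by rw [hi]; decide)
  have e2 := ends j (by omega) (by rw [hj]; decide)
  have hij : i ≠ j := fun e => by rw [e, hj] at hi; exact absurd hi (by decide)
  have h0 : 13 < (p.getVert 0).val ∧ 13 < (p.getVert 15).val := by
    rcases e1 with rfl | rfl <;> rcases e2 with rfl | rfl <;> simp_all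
  have := inj (show 1 ≤ p.length by omega) (show 14 ≤ p.length by omega)
    ((nxt 0 (by omega) h0.1).trans (prv 14 (by omega) h0.2).symm)
  omega

/-- A connected graph meeting the hypothesis with no Hamiltonian path. -/
theorem result : ∃ (V : Type) (_ : Fintype V) (_ : DecidableEq V) (G : SimpleGraph V),
    1 < Fintype.card V ∧ G.Connected ∧ (1 + 2 * (Gᶜ.edgeSet.ncard : ℚ)) / 6 ≤ freq G ∧
      ∀ (a b : V) (p : G.Walk a b), ¬ p.IsHamiltonian := by
  refine ⟨Fin 16, inferInstance, inferInstance, G, by simp, by decide +kernel, ?_, noham⟩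
  have h1 : Gᶜ.edgeSet.ncard = 32 := by
    rw [← coe_edgeFinset, Set.ncard_coe_finset]
    decide +kernel
  have h2 : univ.sup (loc G) = 3 :=
    le_antisymm (Finset.sup_le fun v _ => le3 v) (eq3 0 (by decide) ▸ le_sup (mem_univ _))
  have h3 : 11 ≤ freq G := by
    refine le_trans (by decide) (card_le_card
      (s := univ.filter fun v : Fin 16 => v.val < 10 ∨ v = 13) fun v hv => ?_)
    exact mem_filter.2 ⟨mem_univ _, h2 ▸ eq3 v (mem_filter.1 hv).2⟩
  have h4 : (11 : ℚ) ≤ freq G := by exact_mod_cast h3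
  rw [h1]
  linarith

end Pool.Agent.Results.MP_81a4f1_co.N16
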